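import Mathlib
import Pool.Agent.Lib.MP_476537_nt.GLucky

set_option autoImplicit false

namespace Pool.Agent.Results.MP_476537_nt.SumsetCount

/-- Let L be the set of lucky numbers (same description as in the frozen statements). There is
`c > 0` such that, for all large `x`, at least `(x / log x) * exp (c * sqrt (log log x))` numbers
`n ≤ x` are sums of two lucky numbers. -/
theorem result :
    ∀ L : Set ℕ,
      L = {x : ℕ | ∀ s : ℕ, ∃ j : ℕ,
        (Nat.iterate
          (fun p : ℕ × (ℕ → ℕ) =>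
            ((p.1 + 1 : ℕ), fun i : ℕ => p.2 (i + i / (p.2 p.1 - 1))))
          s ((1 : ℕ), fun i : ℕ => 2 * i + 1)).2 j = x} →
      ∃ c : ℝ, 0 < c ∧ ∃ x₀ : ℕ, ∀ x : ℕ, x₀ ≤ x →
        (x : ℝ) / Real.log x * Real.exp (c * Real.sqrt (Real.log (Real.log x))) ≤
          (Set.ncard {n : ℕ | n ≤ x ∧ ∃ a ∈ L, ∃ b ∈ L, a + b = n} : ℝ) := by
  intro L hL
  have h : L = Pool.Agent.Lib.MP_476537_nt.Lk := by
    rw [hL]
    ext x
    simp only [Pool.Agent.Lib.MP_476537_nt.iter_eq]
    rfl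
  rw [h]
  exact Pool.Agent.Lib.MP_476537_nt.G.sum_count

end Pool.Agent.Results.MP_476537_nt.SumsetCount
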